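import Mathlib
import Pool.Agent.H523R2.Cap.Rate

/-!
`τ(H_{k,3}) ≤ 3^k - 2.22086^k` for all large `k`.
-/

namespace Pool.Agent.Results.MP_636dfe_co.CapRate

open Pool.Agent.H523R2.Cap

/-- `S` meets every line `{a + t b : t ∈ F_q}`, `b ≠ 0`, of the affine space `F^k`. -/
def Blocking {F : Type*} [Field F] {k : ℕ} (S : Finset (Fin k → F)) : Prop :=
  ∀ a b : Fin k → F, b ≠ 0 → ∃ t : F, a + t • b ∈ S

/-- `τ(H_{k,q})`: the least size of a set of points of `F^k` meeting every line. -/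
noncomputable def tau (k : ℕ) (F : Type*) [Field F] : ℕ :=
  sInf {m | ∃ S : Finset (Fin k → F), Blocking S ∧ S.card = m}

theorem result : ∃ k0 : ℕ, ∀ k : ℕ, k0 ≤ k →
    (tau k (ZMod 3) : ℝ) ≤ 3 ^ k - (2.22086 : ℝ) ^ k := by
  classical
  obtain ⟨n0, h⟩ := rate
  refine ⟨n0, fun n hn => ?_⟩
  obtain ⟨A, hA, hA'⟩ := h n hn
  have h1 : tau n (ZMod 3) ≤ Aᶜ.card := Nat.sInf_le ⟨Aᶜ, ?_, rfl⟩
  · have h2 : Aᶜ.card + A.card = 3 ^ n := by
      rw [add_comm, Finset.card_add_card_compl, Fintype.card_fun, ZMod.card, Fintype.card_fin]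
    have h3 : (Aᶜ.card : ℝ) + A.card = 3 ^ n := by exact_mod_cast h2
    have h4 : (tau n (ZMod 3) : ℝ) ≤ Aᶜ.card := by exact_mod_cast h1
    linarith
  · intro a b hb
    by_contra hcon
    push Not at hcon
    have h0 := hcon 0
    have h1 := hcon 1
    have h2 := hcon 2
    rw [Finset.mem_compl, not_not] at h0 h1 h2
    rw [zero_smul, add_zero] at h0
    rw [one_smul] at h1
    refine hb (hA a b h0 h1 ?_)
    have : (2 : ZMod 3) • b = (2 : ℕ) • b := by
      rw [two_nsmul, show (2 : ZMod 3) = 1 + 1 by decide, add_smul, one_smul]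
    rwa [this] at h2

end Pool.Agent.Results.MP_636dfe_co.CapRate
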