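import Mathlib
import Pool.Agent.H289R2.NormLayerN

open Finset

namespace Pool.Agent.Results.MP_636dfe_co.NormFormUpper

/-- `B` meets every line `{a + t b : t ∈ K}`, `b ≠ 0`, of the affine space `K^n`. -/
def BlocksLines (K : Type) [Field K] (n : ℕ) (B : Finset (Fin n → K)) : Prop :=
  ∀ a b : Fin n → K, b ≠ 0 → ∃ t : K, a + t • b ∈ B

/-- The blocking number: the least size of a set of points meeting every line of `K^n`. -/
noncomputable def tau (K : Type) [Field K] (n : ℕ) : ℕ :=
  sInf {m : ℕ | ∃ B : Finset (Fin n → K), BlocksLines K n B ∧ B.card = m}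

/-- For every finite field `K` with `q` elements and all `n, m` with `2 n ≤ m q (q-1)`,
`τ ≤ q^n - q^(n-m)`. -/
theorem result (K : Type) [Field K] [Fintype K] (n m : ℕ)
    (h : 2 * n ≤ m * (Fintype.card K * (Fintype.card K - 1))) :
    tau K n ≤ Fintype.card K ^ n - Fintype.card K ^ (n - m) := by
  classical
  have hq : 1 < Fintype.card K := Fintype.one_lt_card
  have hq1 : Fintype.card K - 1 + 1 = Fintype.card K := by omega
  obtain ⟨A, hA, hline⟩ := H289R2.NormLayerN.exists_set K (Fintype.card K - 1) n m (by omega)
    (by rw [hq1, mul_comm (Fintype.card K - 1)]; exact h)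
  have hAc : Fintype.card K ^ (n - m) ≤ A.card := by
    by_cases hmn : m ≤ n
    · have : Fintype.card K ^ n = Fintype.card K ^ m * Fintype.card K ^ (n - m) := by
        rw [← pow_add]
        congr 1
        omega
      rw [this] at hA
      exact Nat.le_of_mul_le_mul_left hA (by positivity)
    · have h0 : n - m = 0 := by omega
      rw [h0, pow_zero]
      by_contra hc
      have : A.card = 0 := by omega
      rw [this, mul_zero] at hA
      have : 0 < Fintype.card K ^ n := by positivity
      omega
  have hB : BlocksLines K n Aᶜ := by
    intro a b hb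
    by_contra hcon
    push Not at hcon
    have := hline a b hb Finset.univ (by
      intro s _
      have := hcon s
      rwa [Finset.mem_compl, not_not] at this)
    rw [Finset.card_univ] at this
    omega
  have htau : tau K n ≤ (Aᶜ).card := Nat.sInf_le ⟨Aᶜ, hB, rfl⟩
  rw [Finset.card_compl, Fintype.card_fun, Fintype.card_fin] at htau
  omega

end Pool.Agent.Results.MP_636dfe_co.NormFormUpper
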