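import Mathlib
import Pool.Agent.H289R2.NormLayerN

open Finset

namespace Pool.Agent.Results.MP_636dfe_co.PrimeUpper

/-- `B` meets every line `{a + t b : t ∈ K}`, `b ≠ 0`, of the affine space `K^n`. -/
def BlocksLines (K : Type) [Field K] (n : ℕ) (B : Finset (Fin n → K)) : Prop :=
  ∀ a b : Fin n → K, b ≠ 0 → ∃ t : K, a + t • b ∈ B

/-- The blocking number: the least size of a set of points meeting every line of `K^n`. -/
noncomputable def tau (K : Type) [Field K] (n : ℕ) : ℕ :=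
  sInf {m : ℕ | ∃ B : Finset (Fin n → K), BlocksLines K n B ∧ B.card = m}

/-- For every prime `p ≥ 3` and all `m ≤ n` with `2 n ≤ m (p-1) (p-2)`,
`τ ≤ p^n - 2^m p^(n-m)`. -/
theorem result (p : ℕ) [Fact p.Prime] (hp3 : 3 ≤ p) (n m : ℕ) (hmn : m ≤ n)
    (h : 2 * n ≤ m * ((p - 1) * (p - 2))) :
    tau (ZMod p) n ≤ p ^ n - 2 ^ m * p ^ (n - m) := by
  classical
  obtain ⟨A, hA, hline⟩ := H289R2.NormLayerN.exists_lineFree_prime p n m hp3
    (by rw [mul_comm (p - 2)]; exact h)
  have hp0 : 0 < p := by omega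
  have hAc : 2 ^ m * p ^ (n - m) ≤ A.card := by
    have : p ^ n = p ^ m * p ^ (n - m) := by
      rw [← pow_add]
      congr 1
      omega
    rw [this, mul_left_comm] at hA
    exact Nat.le_of_mul_le_mul_left hA (by positivity)
  have hB : BlocksLines (ZMod p) n Aᶜ := by
    intro a b hb
    obtain ⟨s, hs⟩ := hline a b hb
    exact ⟨s, by rw [Finset.mem_compl]; exact hs⟩
  have htau : tau (ZMod p) n ≤ (Aᶜ).card := Nat.sInf_le ⟨Aᶜ, hB, rfl⟩
  rw [Finset.card_compl, Fintype.card_fun, Fintype.card_fin, ZMod.card] at htau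
  omega

end Pool.Agent.Results.MP_636dfe_co.PrimeUpper
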